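import Pool.Agent.V11307.S7.Seven
import Pool.Agent.V11307.RI.S32768

set_option autoImplicit false

/-!
Closed form for the partial sums of `(28k^2+18k+3) C(2k,k)^4 C(3k,k) / (-64)^k`.
-/

namespace V11307.S5

open Finset Nat V11307.RI V11307.S7

/-- `C(3n,n)` -/
def t3 (n : ℕ) : ℚ := ((3 * n).choose n : ℚ)

theorem t3_fact (n : ℕ) : t3 n = ((3 * n)! : ℚ) / ((n ! : ℚ) * ((2 * n)! : ℚ)) := by
  unfold t3
  rw [Nat.cast_choose ℚ (show n ≤ 3 * n by omega), show 3 * n - n = 2 * n by omega]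

theorem t3_succ (n : ℕ) : t3 (n + 1) = t3 n * (3 * (3 * n + 1) * (3 * n + 2)) / (2 * (2 * n + 1) * (n + 1)) := by
  rw [t3_fact, t3_fact]
  have e2 : ((3 * (n + 1))! : ℚ) = (3 * n + 3) * ((3 * n + 2) * ((3 * n + 1) * ((3 * n)! : ℚ))) := by
    rw [show 3 * (n + 1) = 3 * n + 1 + 1 + 1 by ring, Nat.factorial_succ, Nat.factorial_succ,
      Nat.factorial_succ]
    push_cast; ring
  have e3 : ((2 * (n + 1))! : ℚ) = (2 * n + 2) * ((2 * n + 1) * ((2 * n)! : ℚ)) := by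
    rw [show 2 * (n + 1) = 2 * n + 1 + 1 by ring, Nat.factorial_succ, Nat.factorial_succ]
    push_cast; ring
  have e4 : ((n + 1)! : ℚ) = (n + 1) * (n ! : ℚ) := by
    rw [Nat.factorial_succ]; push_cast; ring
  rw [e2, e3, e4]
  have n2 : ((2 * n)! : ℚ) ≠ 0 := by exact_mod_cast (2 * n).factorial_ne_zero
  have n3 : (n ! : ℚ) ≠ 0 := by exact_mod_cast n.factorial_ne_zero
  have n4 : ((n : ℚ) + 1) ≠ 0 := by positivity
  have n5 : (2 * (n : ℚ) + 1) ≠ 0 := by positivity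
  have n6 : (2 * (n : ℚ) + 2) ≠ 0 := by positivity
  field_simp

def g (n j : ℕ) : ℚ := (-1) ^ (n + j) / 4 * (n + 1) * t3 (n + 1) * c (n + 1) * (2 * j + 1) *
  ((2 * n + 2).choose (n + 2 + 2 * j) : ℚ) * ((2 * n + 1).choose (n + 1 + j) : ℚ) * Hq (2 * n + 1) (n + 1 + j)

def f (n j : ℕ) : ℚ := (28 * (n : ℚ) ^ 2 + 18 * n + 3 - 4 * (j : ℚ) ^ 2) * (-1) ^ (n + j) * t3 n * c n *
  ((2 * n).choose (n + 2 * j) : ℚ) * ((2 * n).choose (n + j) : ℚ) * Hq (2 * n) (n + j)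

theorem wz (n j : ℕ) : g (n + 1) j - (-64) * g n j = f (n + 1) j - f (n + 1) (j + 1) := by
  have b1 : ((2 * n + 3).choose (n + 2 + 2 * j) : ℚ) =
      ((2 * (n + 1) + 2).choose (n + 1 + 2 + 2 * j) : ℚ) * (n + 3 + 2 * j) / (2 * n + 4) := by
    have := chB (2 * n + 3) (n + 2 + 2 * j)
    rw [this, show 2 * n + 3 + 1 = 2 * (n + 1) + 2 by ring, show n + 2 + 2 * j + 1 = n + 1 + 2 + 2 * j by ring]
    push_cast
    congr 1 <;> ring
  have b2 : ((2 * n + 3).choose (n + 3 + 2 * j) : ℚ) =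
      ((2 * (n + 1) + 2).choose (n + 1 + 2 + 2 * j) : ℚ) * (n + 1 - 2 * j) / (2 * n + 4) := by
    have := chA (2 * n + 3) (n + 3 + 2 * j)
    rw [this, show 2 * n + 3 + 1 = 2 * (n + 1) + 2 by ring, show n + 3 + 2 * j = n + 1 + 2 + 2 * j by ring]
    push_cast
    congr 1 <;> ring
  have a1 : ((2 * (n + 1)).choose (n + 1 + 2 * j) : ℚ) =
      ((2 * (n + 1) + 2).choose (n + 1 + 2 + 2 * j) : ℚ) * (n + 3 + 2 * j) / (2 * n + 4) * (n + 2 + 2 * j) / (2 * n + 3) := by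
    have := chB (2 * (n + 1)) (n + 1 + 2 * j)
    rw [this, show 2 * (n + 1) + 1 = 2 * n + 3 by ring, show n + 1 + 2 * j + 1 = n + 2 + 2 * j by ring, b1]
    push_cast
    congr 1
    · ring
    · ring
  have a2 : ((2 * n + 2).choose (n + 2 + 2 * j) : ℚ) =
      ((2 * (n + 1) + 2).choose (n + 1 + 2 + 2 * j) : ℚ) * (n + 3 + 2 * j) / (2 * n + 4) * (n + 1 - 2 * j) / (2 * n + 3) := by
    have := chA (2 * n + 2) (n + 2 + 2 * j)
    rw [this, show 2 * n + 2 + 1 = 2 * n + 3 by ring, b1]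
    push_cast
    congr 1
    · ring
    · ring
  have a3 : ((2 * (n + 1)).choose (n + 1 + 2 * (j + 1)) : ℚ) =
      ((2 * (n + 1) + 2).choose (n + 1 + 2 + 2 * j) : ℚ) * (n + 1 - 2 * j) / (2 * n + 4) * (n - 2 * j) / (2 * n + 3) := by
    have := chA (2 * (n + 1)) (n + 1 + 2 * (j + 1))
    rw [this, show 2 * (n + 1) + 1 = 2 * n + 3 by ring, show n + 1 + 2 * (j + 1) = n + 3 + 2 * j by ring, b2]
    push_cast
    congr 1
    · ring
    · ring
  have d1 : ((2 * (n + 1)).choose (n + 1 + j) : ℚ) =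
      ((2 * (n + 1) + 1).choose (n + 1 + 1 + j) : ℚ) * (n + 2 + j) / (2 * n + 3) := by
    have := chB (2 * (n + 1)) (n + 1 + j)
    rw [this, show n + 1 + j + 1 = n + 1 + 1 + j by ring]
    push_cast
    congr 1 <;> ring
  have d2 : ((2 * (n + 1)).choose (n + 1 + (j + 1)) : ℚ) =
      ((2 * (n + 1) + 1).choose (n + 1 + 1 + j) : ℚ) * (n + 1 - j) / (2 * n + 3) := by
    have := chA (2 * (n + 1)) (n + 1 + (j + 1))
    rw [this, show n + 1 + (j + 1) = n + 1 + 1 + j by ring]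
    push_cast
    congr 1 <;> ring
  have d3 : ((2 * n + 1).choose (n + 1 + j) : ℚ) =
      ((2 * (n + 1) + 1).choose (n + 1 + 1 + j) : ℚ) * (n + 2 + j) / (2 * n + 3) * (n + 1 - j) / (2 * n + 2) := by
    have := chA (2 * n + 1) (n + 1 + j)
    rw [this, show 2 * n + 1 + 1 = 2 * (n + 1) by ring, d1]
    push_cast
    congr 1
    · ring
    · ring
  have h1 : Hq (2 * (n + 1)) (n + 1 + j) = Hq (2 * n + 1) (n + 1 + j) * (2 * (2 * j - 2 * n - 1)) / (2 * n + 2) := by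
    rw [show 2 * (n + 1) = 2 * n + 1 + 1 by ring, Hq_succ]
    push_cast
    congr 1
    · congr 1
      ring
    · ring
  have h2 : Hq (2 * (n + 1) + 1) (n + 1 + 1 + j) = Hq (2 * n + 1) (n + 1 + j) * (2 * (2 * j - 2 * n - 1)) / (2 * n + 2) *
      (2 * (2 * n + 2 * j + 3)) / (2 * n + 3) := by
    rw [show n + 1 + 1 + j = n + 1 + j + 1 by ring, Hq_succ', h1]
    push_cast
    congr 1
    · congr 1
      ring
    · ring
  have h3 : Hq (2 * (n + 1)) (n + 1 + (j + 1)) = Hq (2 * n + 1) (n + 1 + j) * (2 * (2 * n + 2 * j + 3)) / (2 * n + 2) := by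
    rw [show 2 * (n + 1) = 2 * n + 1 + 1 by ring, show n + 1 + (j + 1) = n + 1 + j + 1 by ring, Hq_succ']
    push_cast
    congr 1
    · congr 1
      ring
    · ring
  have hn : ((n : ℚ) + 1) ≠ 0 := by positivity
  have hn0 : ((n : ℚ) + 1 + 1) ≠ 0 := by positivity
  have hn1 : (2 * (n : ℚ) + 1) ≠ 0 := by positivity
  have hn2 : (2 * (n : ℚ) + 2) ≠ 0 := by positivity
  have hn3 : (2 * (n : ℚ) + 3) ≠ 0 := by positivity
  have hn4 : (2 * (n : ℚ) + 4) ≠ 0 := by positivity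
  have hn5 : (2 * ((n : ℚ) + 1) + 1) ≠ 0 := by positivity
  have p1 : ((-1 : ℚ)) ^ (n + 1 + j) = -(-1) ^ (n + j) := by
    rw [show n + 1 + j = n + j + 1 by ring, pow_succ]; ring
  have p2 : ((-1 : ℚ)) ^ (n + 1 + (j + 1)) = (-1) ^ (n + j) := by
    rw [show n + 1 + (j + 1) = n + j + 1 + 1 by ring, pow_succ, pow_succ]; ring
  have c1 := c_succ (n + 1)
  have t1 := t3_succ (n + 1)
  push_cast at c1 t1
  unfold g f
  rw [c1, t1, a1, a2, a3, d1, d2, d3, h1, h2, h3, p1, p2]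
  generalize Hq (2 * n + 1) (n + 1 + j) = Y
  generalize (((2 * (n + 1) + 2).choose (n + 1 + 2 + 2 * j) : ℕ) : ℚ) = Z
  generalize (((2 * (n + 1) + 1).choose (n + 1 + 1 + j) : ℕ) : ℚ) = W
  generalize c (n + 1) = C
  generalize t3 (n + 1) = T
  generalize ((-1 : ℚ)) ^ (n + j) = s
  push_cast
  field_simp
  ring

theorem f_zero (n : ℕ) : f n 0 = (28 * (n : ℚ) ^ 2 + 18 * n + 3) * c n ^ 4 * t3 n := by
  unfold f
  rw [Nat.mul_zero, Nat.add_zero, Hq_mid]
  have hs : ((-1 : ℚ) ^ n) * (-1) ^ n = 1 := by rw [← mul_pow]; norm_num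
  have h1 : (((2 * n).choose n : ℕ) : ℚ) = c n := rfl
  rw [h1]
  push_cast
  linear_combination (28 * (n : ℚ) ^ 2 + 18 * n + 3) * c n ^ 4 * t3 n * hs

theorem closed5 {S : ℕ → ℚ} (h0 : S 0 = 0)
    (hS : ∀ n, S (n + 1) = -64 * S n + (28 * (n : ℚ) ^ 2 + 18 * n + 3) * c n ^ 4 * t3 n) (n : ℕ) :
    S (n + 1) = ∑ j ∈ range (n + 1), g n j := by
  refine closedL (m := -64) (F := f) (w := fun n => (28 * (n : ℚ) ^ 2 + 18 * n + 3) * c n ^ 4 * t3 n)
    (fun n => n + 1) (fun n => by omega) wz hS (fun n => f_zero (n + 1)) (fun n => ?_) (fun n j hj => ?_) ?_ n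
  · unfold f
    rw [Nat.choose_eq_zero_of_lt (by omega)]
    simp
  · unfold g
    rw [Nat.choose_eq_zero_of_lt (show 2 * n + 2 < n + 2 + 2 * j by omega)]
    simp
  · rw [hS, h0]
    norm_num [g, c, t3, Hq, Nat.choose]

/-! ### integrality of the terms -/

theorem flr {x q : ℕ} (hq : 0 < q) : q * (x / q) ≤ x ∧ x < q * (x / q) + q := by
  have := Nat.div_add_mod x q
  have := Nat.mod_lt x hq
  constructor <;> omega

theorem levX (s t q : ℕ) (hq : 2 ≤ q) (hs : s < q) (ht : t < q) :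
    (4 * s + t + 1) / q + ((3 * s + t + 1) / q + ((3 * s + t + 1) / q + ((s + t) / q + ((s + t) / q + (4 * s + 2 * t + 3) / q)))) ≤
      (6 * s + 3 * t + 3) / q + ((6 * s + 2 * t + 2) / q + ((2 * s + 2 * t) / q + (2 * s + t) / q)) := by
  obtain ⟨p1, p2⟩ := flr (x := 4 * s + t + 1) (q := q) (by omega)
  obtain ⟨p3, p4⟩ := flr (x := 3 * s + t + 1) (q := q) (by omega)
  obtain ⟨p5, p6⟩ := flr (x := s + t) (q := q) (by omega)
  obtain ⟨p7, p8⟩ := flr (x := 4 * s + 2 * t + 3) (q := q) (by omega)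
  obtain ⟨p9, p10⟩ := flr (x := 6 * s + 3 * t + 3) (q := q) (by omega)
  obtain ⟨p11, p12⟩ := flr (x := 6 * s + 2 * t + 2) (q := q) (by omega)
  obtain ⟨p13, p14⟩ := flr (x := 2 * s + 2 * t) (q := q) (by omega)
  obtain ⟨p15, p16⟩ := flr (x := 2 * s + t) (q := q) (by omega)
  have b1 : (4 * s + t + 1) / q < 5 := by rw [Nat.div_lt_iff_lt_mul (by omega)]; omega
  have b2 : (3 * s + t + 1) / q < 4 := by rw [Nat.div_lt_iff_lt_mul (by omega)]; omega
  have b3 : (s + t) / q < 2 := by rw [Nat.div_lt_iff_lt_mul (by omega)]; omega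
  have b4 : (4 * s + 2 * t + 3) / q < 6 := by rw [Nat.div_lt_iff_lt_mul (by omega)]; omega
  have b5 : (6 * s + 3 * t + 3) / q < 9 := by rw [Nat.div_lt_iff_lt_mul (by omega)]; omega
  have b6 : (6 * s + 2 * t + 2) / q < 8 := by rw [Nat.div_lt_iff_lt_mul (by omega)]; omega
  have b7 : (2 * s + 2 * t) / q < 4 := by rw [Nat.div_lt_iff_lt_mul (by omega)]; omega
  have b8 : (2 * s + t) / q < 3 := by rw [Nat.div_lt_iff_lt_mul (by omega)]; omega
  generalize (4 * s + t + 1) / q = x1 at *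
  generalize (3 * s + t + 1) / q = x2 at *
  generalize (s + t) / q = x3 at *
  generalize (4 * s + 2 * t + 3) / q = x4 at *
  generalize (6 * s + 3 * t + 3) / q = x5 at *
  generalize (6 * s + 2 * t + 2) / q = x6 at *
  generalize (2 * s + 2 * t) / q = x7 at *
  generalize (2 * s + t) / q = x8 at *
  interval_cases x3 <;> interval_cases x7 <;> (try omega) <;> interval_cases x8 <;> (try omega) <;>
    interval_cases x2 <;> (try omega) <;> interval_cases x6 <;> (try omega) <;> interval_cases x1 <;> (try omega) <;>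
    interval_cases x4 <;> (try omega) <;> interval_cases x5 <;> omega

theorem levY (s t q : ℕ) (hq : 2 ≤ q) (hs : s < q) (ht : t < q) :
    (4 * s + t + 3) / q + ((3 * s + t + 2) / q + ((3 * s + t + 2) / q + ((s + t + 1) / q + ((s + t + 1) / q + (4 * s + 2 * t + 5) / q)))) ≤
      (6 * s + 3 * t + 6) / q + ((6 * s + 2 * t + 4) / q + ((2 * s + 2 * t + 2) / q + (2 * s + t + 1) / q)) := by
  obtain ⟨p1, p2⟩ := flr (x := 4 * s + t + 3) (q := q) (by omega)
  obtain ⟨p3, p4⟩ := flr (x := 3 * s + t + 2) (q := q) (by omega)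
  obtain ⟨p5, p6⟩ := flr (x := s + t + 1) (q := q) (by omega)
  obtain ⟨p7, p8⟩ := flr (x := 4 * s + 2 * t + 5) (q := q) (by omega)
  obtain ⟨p9, p10⟩ := flr (x := 6 * s + 3 * t + 6) (q := q) (by omega)
  obtain ⟨p11, p12⟩ := flr (x := 6 * s + 2 * t + 4) (q := q) (by omega)
  obtain ⟨p13, p14⟩ := flr (x := 2 * s + 2 * t + 2) (q := q) (by omega)
  obtain ⟨p15, p16⟩ := flr (x := 2 * s + t + 1) (q := q) (by omega)
  have b1 : (4 * s + t + 3) / q < 5 := by rw [Nat.div_lt_iff_lt_mul (by omega)]; omega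
  have b2 : (3 * s + t + 2) / q < 4 := by rw [Nat.div_lt_iff_lt_mul (by omega)]; omega
  have b3 : (s + t + 1) / q < 2 := by rw [Nat.div_lt_iff_lt_mul (by omega)]; omega
  have b4 : (4 * s + 2 * t + 5) / q < 6 := by rw [Nat.div_lt_iff_lt_mul (by omega)]; omega
  have b5 : (6 * s + 3 * t + 6) / q < 9 := by rw [Nat.div_lt_iff_lt_mul (by omega)]; omega
  have b6 : (6 * s + 2 * t + 4) / q < 8 := by rw [Nat.div_lt_iff_lt_mul (by omega)]; omega
  have b7 : (2 * s + 2 * t + 2) / q < 4 := by rw [Nat.div_lt_iff_lt_mul (by omega)]; omega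
  have b8 : (2 * s + t + 1) / q < 3 := by rw [Nat.div_lt_iff_lt_mul (by omega)]; omega
  generalize (4 * s + t + 3) / q = x1 at *
  generalize (3 * s + t + 2) / q = x2 at *
  generalize (s + t + 1) / q = x3 at *
  generalize (4 * s + 2 * t + 5) / q = x4 at *
  generalize (6 * s + 3 * t + 6) / q = x5 at *
  generalize (6 * s + 2 * t + 4) / q = x6 at *
  generalize (2 * s + 2 * t + 2) / q = x7 at *
  generalize (2 * s + t + 1) / q = x8 at *
  interval_cases x3 <;> interval_cases x7 <;> (try omega) <;> interval_cases x8 <;> (try omega) <;>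
    interval_cases x2 <;> (try omega) <;> interval_cases x6 <;> (try omega) <;> interval_cases x1 <;> (try omega) <;>
    interval_cases x4 <;> (try omega) <;> interval_cases x5 <;> omega

theorem X_dvd (j r : ℕ) : (4 * j + r + 1)! * ((3 * j + r + 1)! * ((3 * j + r + 1)! * ((j + r)! * ((j + r)! *
    ((4 * j + 2 * r + 3)! * r !))))) ∣ (6 * j + 3 * r + 3)! * ((6 * j + 2 * r + 2)! * ((2 * j + 2 * r)! * (2 * j + r)!)) := by
  have h := fact_dvd [6 * j + 3 * r + 3, 6 * j + 2 * r + 2, 2 * j + 2 * r, 2 * j + r]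
    [4 * j + r + 1, 3 * j + r + 1, 3 * j + r + 1, j + r, j + r, 4 * j + 2 * r + 3, r] ?_
  · simpa using h
  intro q hq
  simp only [List.map_cons, List.map_nil, List.sum_cons, List.sum_nil, Nat.add_zero]
  have hq0 : 0 < q := by omega
  have hs : j % q < q := Nat.mod_lt _ hq0
  have ht : r % q < q := Nat.mod_lt _ hq0
  have ej := Nat.div_add_mod j q
  have er := Nat.div_add_mod r q
  have hl := levX (j % q) (r % q) q hq hs ht
  have h0 : (r % q) / q = 0 := Nat.div_eq_of_lt ht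
  generalize j % q = s at *
  generalize j / q = A at *
  generalize r % q = t at *
  generalize r / q = B at *
  subst ej er
  rw [show 4 * (q * A + s) + (q * B + t) + 1 = (4 * s + t + 1) + q * (4 * A + B) by ring,
    show 3 * (q * A + s) + (q * B + t) + 1 = (3 * s + t + 1) + q * (3 * A + B) by ring,
    show q * A + s + (q * B + t) = (s + t) + q * (A + B) by ring,
    show 4 * (q * A + s) + 2 * (q * B + t) + 3 = (4 * s + 2 * t + 3) + q * (4 * A + 2 * B) by ring,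
    show 6 * (q * A + s) + 3 * (q * B + t) + 3 = (6 * s + 3 * t + 3) + q * (6 * A + 3 * B) by ring,
    show 6 * (q * A + s) + 2 * (q * B + t) + 2 = (6 * s + 2 * t + 2) + q * (6 * A + 2 * B) by ring,
    show 2 * (q * A + s) + 2 * (q * B + t) = (2 * s + 2 * t) + q * (2 * A + 2 * B) by ring,
    show 2 * (q * A + s) + (q * B + t) = (2 * s + t) + q * (2 * A + B) by ring]
  simp only [Nat.add_mul_div_left _ _ hq0]
  omega

theorem Y_dvd (j r : ℕ) : (4 * j + r + 3)! * ((3 * j + r + 2)! * ((3 * j + r + 2)! * ((j + r + 1)! * ((j + r + 1)! *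
    ((4 * j + 2 * r + 5)! * r !))))) ∣ (6 * j + 3 * r + 6)! * ((6 * j + 2 * r + 4)! * ((2 * j + 2 * r + 2)! * (2 * j + r + 1)!)) := by
  have h := fact_dvd [6 * j + 3 * r + 6, 6 * j + 2 * r + 4, 2 * j + 2 * r + 2, 2 * j + r + 1]
    [4 * j + r + 3, 3 * j + r + 2, 3 * j + r + 2, j + r + 1, j + r + 1, 4 * j + 2 * r + 5, r] ?_
  · simpa using h
  intro q hq
  simp only [List.map_cons, List.map_nil, List.sum_cons, List.sum_nil, Nat.add_zero]
  have hq0 : 0 < q := by omega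
  have hs : j % q < q := Nat.mod_lt _ hq0
  have ht : r % q < q := Nat.mod_lt _ hq0
  have ej := Nat.div_add_mod j q
  have er := Nat.div_add_mod r q
  have hl := levY (j % q) (r % q) q hq hs ht
  have h0 : (r % q) / q = 0 := Nat.div_eq_of_lt ht
  generalize j % q = s at *
  generalize j / q = A at *
  generalize r % q = t at *
  generalize r / q = B at *
  subst ej er
  rw [show 4 * (q * A + s) + (q * B + t) + 3 = (4 * s + t + 3) + q * (4 * A + B) by ring,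
    show 3 * (q * A + s) + (q * B + t) + 2 = (3 * s + t + 2) + q * (3 * A + B) by ring,
    show q * A + s + (q * B + t) + 1 = (s + t + 1) + q * (A + B) by ring,
    show 4 * (q * A + s) + 2 * (q * B + t) + 5 = (4 * s + 2 * t + 5) + q * (4 * A + 2 * B) by ring,
    show 6 * (q * A + s) + 3 * (q * B + t) + 6 = (6 * s + 3 * t + 6) + q * (6 * A + 3 * B) by ring,
    show 6 * (q * A + s) + 2 * (q * B + t) + 4 = (6 * s + 2 * t + 4) + q * (6 * A + 2 * B) by ring,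
    show 2 * (q * A + s) + 2 * (q * B + t) + 2 = (2 * s + 2 * t + 2) + q * (2 * A + 2 * B) by ring,
    show 2 * (q * A + s) + (q * B + t) + 1 = (2 * s + t + 1) + q * (2 * A + B) by ring]
  simp only [Nat.add_mul_div_left _ _ hq0]
  omega

theorem g_int (n j : ℕ) : ∃ z : ℤ, 2 * g n j = (2 * (n : ℚ) + 3) * (2 * n + 1) ^ 2 * c n ^ 2 * z := by
  rcases Nat.lt_or_ge n (2 * j) with h | h
  · refine ⟨0, ?_⟩
    unfold g
    rw [Nat.choose_eq_zero_of_lt (show 2 * n + 2 < n + 2 + 2 * j by omega)]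
    simp
  · obtain ⟨r, rfl⟩ : ∃ r, n = 2 * j + r := ⟨n - 2 * j, by omega⟩
    obtain ⟨x, hx⟩ := X_dvd j r
    obtain ⟨y, hy⟩ : ∃ y : ℕ, (4 * j + r + 2) * y = r * x := by
      rcases Nat.eq_zero_or_pos r with h0 | h0
      · exact ⟨0, by rw [h0]; simp⟩
      · obtain ⟨r', rfl⟩ : ∃ r', r = r' + 1 := ⟨r - 1, by omega⟩
        obtain ⟨y, hy⟩ := Y_dvd j r'
        refine ⟨y, ?_⟩
        rw [show 4 * j + (r' + 1) + 1 = 4 * j + r' + 2 by ring, show 3 * j + (r' + 1) + 1 = 3 * j + r' + 2 by ring,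
          show j + (r' + 1) = j + r' + 1 by ring, show 4 * j + 2 * (r' + 1) + 3 = 4 * j + 2 * r' + 5 by ring,
          show 6 * j + 3 * (r' + 1) + 3 = 6 * j + 3 * r' + 6 by ring, show 6 * j + 2 * (r' + 1) + 2 = 6 * j + 2 * r' + 4 by ring,
          show 2 * j + 2 * (r' + 1) = 2 * j + 2 * r' + 2 by ring, show 2 * j + (r' + 1) = 2 * j + r' + 1 by ring,
          hy, show 4 * j + r' + 3 = 4 * j + r' + 2 + 1 by ring, Nat.factorial_succ, Nat.factorial_succ r'] at hx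
        have hpos : 0 < (4 * j + r' + 2)! * ((3 * j + r' + 2)! * ((3 * j + r' + 2)! * ((j + r' + 1)! * ((j + r' + 1)! *
            ((4 * j + 2 * r' + 5)! * r' !))))) := by positivity
        apply Nat.eq_of_mul_eq_mul_left hpos
        linear_combination hx
    refine ⟨(x : ℤ) - y, ?_⟩
    have m1 : ((4 * j + r + 1)! : ℚ) ≠ 0 := by exact_mod_cast (4 * j + r + 1).factorial_ne_zero
    have m2 : ((3 * j + r + 1)! : ℚ) ≠ 0 := by exact_mod_cast (3 * j + r + 1).factorial_ne_zero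
    have m3 : ((j + r)! : ℚ) ≠ 0 := by exact_mod_cast (j + r).factorial_ne_zero
    have m4 : (r ! : ℚ) ≠ 0 := by exact_mod_cast r.factorial_ne_zero
    have m5 : ((4 * j + 2 * r)! : ℚ) ≠ 0 := by exact_mod_cast (4 * j + 2 * r).factorial_ne_zero
    have m6 : ((2 * j + r)! : ℚ) ≠ 0 := by exact_mod_cast (2 * j + r).factorial_ne_zero
    have k1 : ((4 * j + r + 2)! : ℚ) = (4 * j + r + 2) * ((4 * j + r + 1)! : ℚ) := by
      rw [Nat.factorial_succ]; push_cast; ring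
    have k2 : ((4 * j + 2 * r + 1)! : ℚ) = (4 * j + 2 * r + 1) * ((4 * j + 2 * r)! : ℚ) := by
      rw [Nat.factorial_succ]; push_cast; ring
    have k3 : ((4 * j + 2 * r + 2)! : ℚ) = (4 * j + 2 * r + 2) * ((4 * j + 2 * r + 1) * ((4 * j + 2 * r)! : ℚ)) := by
      rw [Nat.factorial_succ, Nat.factorial_succ]; push_cast; ring
    have k4 : ((4 * j + 2 * r + 3)! : ℚ) = (4 * j + 2 * r + 3) * ((4 * j + 2 * r + 2) * ((4 * j + 2 * r + 1) *
        ((4 * j + 2 * r)! : ℚ))) := by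
      rw [Nat.factorial_succ, Nat.factorial_succ, Nat.factorial_succ]; push_cast; ring
    have k5 : ((2 * j + r + 1)! : ℚ) = (2 * j + r + 1) * ((2 * j + r)! : ℚ) := by
      rw [Nat.factorial_succ]; push_cast; ring
    have n1 : ((4 : ℚ) * j + r + 2) ≠ 0 := by positivity
    have n2 : ((4 : ℚ) * j + 2 * r + 1) ≠ 0 := by positivity
    have n3 : ((4 : ℚ) * j + 2 * r + 2) ≠ 0 := by positivity
    have n4 : ((4 : ℚ) * j + 2 * r + 3) ≠ 0 := by positivity
    have n5 : ((2 : ℚ) * j + r + 1) ≠ 0 := by positivity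
    have hx' : ((6 * j + 3 * r + 3)! : ℚ) * (((6 * j + 2 * r + 2)! : ℚ) * (((2 * j + 2 * r)! : ℚ) * ((2 * j + r)! : ℚ))) =
        ((4 * j + r + 1)! : ℚ) * (((3 * j + r + 1)! : ℚ) * (((3 * j + r + 1)! : ℚ) * (((j + r)! : ℚ) * (((j + r)! : ℚ) *
        (((4 * j + 2 * r + 3)! : ℚ) * (r ! : ℚ)))))) * x := by exact_mod_cast hx
    have hy' : ((4 : ℚ) * j + r + 2) * y = r * x := by exact_mod_cast hy
    have hHq : Hq (2 * (2 * j + r) + 1) (2 * j + r + 1 + j) = (-1) ^ (j + r) * (((6 * j + 2 * r + 2)! : ℚ) * ((2 * j + 2 * r)! : ℚ) /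
        (((3 * j + r + 1)! : ℚ) * ((j + r)! : ℚ) * ((4 * j + 2 * r + 1)! : ℚ))) := by
      have h1 := S32768.Hi_mid (3 * j + r + 1) (j + r)
      have h2 : Hq (2 * (2 * j + r) + 1) (2 * j + r + 1 + j) = S32768.Hi (3 * j + r + 1 + (j + r)) ((3 * j + r + 1 : ℕ) : ℤ) := by
        rw [show 2 * (2 * j + r) + 1 = 3 * j + r + 1 + (j + r) by ring, show 2 * j + r + 1 + j = 3 * j + r + 1 by ring]
        unfold Hq S32768.Hi
        push_cast
        rfl
      rw [h2, h1, show 2 * (3 * j + r + 1) = 6 * j + 2 * r + 2 by ring, show 2 * (j + r) = 2 * j + 2 * r by ring,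
        show 3 * j + r + 1 + (j + r) = 4 * j + 2 * r + 1 by ring]
    have hc : c (2 * j + r) = ((4 * j + 2 * r)! : ℚ) / ((2 * j + r)! : ℚ) ^ 2 := by
      unfold c
      rw [Nat.cast_choose ℚ (show 2 * j + r ≤ 2 * (2 * j + r) by omega), show 2 * (2 * j + r) - (2 * j + r) = 2 * j + r by omega,
        show 2 * (2 * j + r) = 4 * j + 2 * r by ring, pow_two]
    have hc1 := c_succ (2 * j + r)
    have ht : t3 (2 * j + r + 1) = ((6 * j + 3 * r + 3)! : ℚ) / (((2 * j + r + 1)! : ℚ) * ((4 * j + 2 * r + 2)! : ℚ)) := by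
      rw [t3_fact, show 3 * (2 * j + r + 1) = 6 * j + 3 * r + 3 by ring, show 2 * (2 * j + r + 1) = 4 * j + 2 * r + 2 by ring]
    have hb1 : ((2 * (2 * j + r) + 2).choose (2 * j + r + 2 + 2 * j) : ℚ) =
        ((4 * j + 2 * r + 2)! : ℚ) / (((4 * j + r + 2)! : ℚ) * (r ! : ℚ)) := by
      rw [Nat.cast_choose ℚ (show 2 * j + r + 2 + 2 * j ≤ 2 * (2 * j + r) + 2 by omega),
        show 2 * (2 * j + r) + 2 - (2 * j + r + 2 + 2 * j) = r by omega,
        show 2 * (2 * j + r) + 2 = 4 * j + 2 * r + 2 by ring, show 2 * j + r + 2 + 2 * j = 4 * j + r + 2 by ring]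
    have hb2 : ((2 * (2 * j + r) + 1).choose (2 * j + r + 1 + j) : ℚ) =
        ((4 * j + 2 * r + 1)! : ℚ) / (((3 * j + r + 1)! : ℚ) * ((j + r)! : ℚ)) := by
      rw [Nat.cast_choose ℚ (show 2 * j + r + 1 + j ≤ 2 * (2 * j + r) + 1 by omega),
        show 2 * (2 * j + r) + 1 - (2 * j + r + 1 + j) = j + r by omega,
        show 2 * (2 * j + r) + 1 = 4 * j + 2 * r + 1 by ring, show 2 * j + r + 1 + j = 3 * j + r + 1 by ring]
    have hsg : ((-1 : ℚ)) ^ (2 * j + r + j) * (-1) ^ (j + r) = 1 := by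
      rw [← pow_add, show 2 * j + r + j + (j + r) = 2 * (2 * j + r) by ring, pow_mul]; norm_num
    have hxq : (x : ℚ) = ((6 * j + 3 * r + 3)! : ℚ) * (((6 * j + 2 * r + 2)! : ℚ) * (((2 * j + 2 * r)! : ℚ) * ((2 * j + r)! : ℚ))) /
        (((4 * j + r + 1)! : ℚ) * (((3 * j + r + 1)! : ℚ) * (((3 * j + r + 1)! : ℚ) * (((j + r)! : ℚ) * (((j + r)! : ℚ) *
        (((4 * j + 2 * r + 3) * ((4 * j + 2 * r + 2) * ((4 * j + 2 * r + 1) * ((4 * j + 2 * r)! : ℚ)))) * (r ! : ℚ))))))) := by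
      rw [eq_div_iff (by positivity), ← k4, hx']; ring
    have hyq : (y : ℚ) = r * x / (4 * j + r + 2) := by
      rw [eq_div_iff n1, ← hy']; ring
    unfold g
    rw [hHq, hc1, ht, hb1, hb2, hc]
    push_cast
    rw [hyq, hxq, k1, k2, k3, k5]
    generalize ((6 * j + 3 * r + 3)! : ℚ) = A at *
    generalize ((6 * j + 2 * r + 2)! : ℚ) = B at *
    generalize ((2 * j + 2 * r)! : ℚ) = D at *
    generalize ((4 * j + r + 1)! : ℚ) = E at *
    generalize (r ! : ℚ) = F at *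
    generalize ((3 * j + r + 1)! : ℚ) = G at *
    generalize ((j + r)! : ℚ) = H at *
    generalize ((4 * j + 2 * r)! : ℚ) = K at *
    generalize ((2 * j + r)! : ℚ) = L at *
    generalize ((-1 : ℚ)) ^ (2 * j + r + j) = s1 at *
    generalize ((-1 : ℚ)) ^ (j + r) = s2 at *
    have n6 : ((2 : ℚ) * j + r + 1) ≠ 0 := by positivity
    field_simp
    linear_combination A * B * D * (560 * j * r + 384 * j * r ^ 2 + 64 * j * r ^ 3 + 224 * j + 1152 * j ^ 2 * r +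
      384 * j ^ 2 * r ^ 2 + 736 * j ^ 2 + 768 * j ^ 3 * r + 1024 * j ^ 3 + 512 * j ^ 4 + 88 * r + 96 * r ^ 2 +
      32 * r ^ 3 + 24) * hsg

/-! ### 2-part -/

theorem two_part5 {κ w : ℤ → ℤ} {m : ℤ} (hm : 4 ∣ m) {S : ℕ → ℤ}
    (hS : ∀ n : ℕ, S (n + 1) = m * S n + κ n * ((2 * n).choose n : ℤ) ^ 4 * w n)
    (h2 : 16 ∣ S 2) (n : ℕ) :
    ∃ o : ℤ, Odd o ∧ 4 * ((2 * (n + 1)).choose (n + 1) : ℤ) ^ 2 ∣ o * S (n + 2) := by
  induction n with
  | zero =>
    refine ⟨1, odd_one, ?_⟩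
    have : ((2 * (0 + 1)).choose (0 + 1) : ℤ) = 2 := by norm_num
    rw [this]
    simpa using h2
  | succ n ih =>
    obtain ⟨o, ho, z, hz⟩ := ih
    obtain ⟨m', rfl⟩ := hm
    have hcen : ((n : ℤ) + 2) * ((2 * (n + 2)).choose (n + 2) : ℤ) =
        2 * (2 * n + 3) * ((2 * (n + 1)).choose (n + 1) : ℤ) := by
      have := central (n + 1)
      have h' : (((n + 1 + 1) * (2 * (n + 1 + 1)).choose (n + 1 + 1) : ℕ) : ℤ) =
        ((2 * (2 * (n + 1) + 1) * (2 * (n + 1)).choose (n + 1) : ℕ) : ℤ) := by rw [this]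
      push_cast at h'
      linear_combination h'
    obtain ⟨u, hu⟩ := two_dvd (n := n + 2) (by omega)
    have hu' : ((2 * (n + 2)).choose (n + 2) : ℤ) = 2 * u := by exact_mod_cast hu
    refine ⟨o * (2 * n + 3) ^ 2, ho.mul (Odd.pow ⟨n + 1, by ring⟩),
      z * m' * (n + 2) ^ 2 + o * (2 * n + 3) ^ 2 * κ (n + 2) * w (n + 2) * u ^ 2, ?_⟩
    have h2 := hS (n + 2)
    rw [show n + 1 + 1 = n + 2 by ring, show n + 1 + 2 = n + 2 + 1 by ring, h2]
    have hc3 : (((n : ℤ) + 2) * ((2 * (n + 2)).choose (n + 2) : ℤ)) ^ 2 =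
        (2 * (2 * n + 3) * ((2 * (n + 1)).choose (n + 1) : ℤ)) ^ 2 := by rw [hcen]
    have hu4 : ((2 * (n + 2)).choose (n + 2) : ℤ) ^ 2 = 4 * u ^ 2 := by rw [hu']; ring
    push_cast
    linear_combination 4 * m' * (2 * n + 3) ^ 2 * hz - 4 * z * m' * hc3 +
      o * (2 * n + 3) ^ 2 * κ (n + 2) * w (n + 2) * ((2 * (n + 2)).choose (n + 2) : ℤ) ^ 2 * hu4

theorem combineP {A C S o : ℤ} (a b : ℕ) (hA : Odd A) (ho : Odd o) (hC : C ≠ 0) (h1 : A * C ∣ 2 ^ a * S)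
    (h2 : 2 ^ b * C ∣ o * S) : 2 ^ b * (A * C) ∣ S := by
  have cop : ∀ {x : ℤ}, Odd x → ∀ k : ℕ, IsCoprime x (2 ^ k) := fun {x} hx k => IsCoprime.pow_right (by
    rcases hx with ⟨k, rfl⟩
    exact ⟨1, -k, by ring⟩)
  have hCS : C ∣ S := by
    obtain ⟨u, v, huv⟩ := cop ho a
    have e : S = u * (o * S) + v * (2 ^ a * S) := by linear_combination (-S) * huv
    rw [e]
    exact dvd_add (Dvd.dvd.mul_left ((Dvd.intro_left _ rfl).trans h2) _)
      (Dvd.dvd.mul_left ((Dvd.intro_left _ rfl).trans h1) _)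
  obtain ⟨s, rfl⟩ := hCS
  have h3 : A ∣ 2 ^ a * s := by
    have : C * A ∣ C * (2 ^ a * s) := by convert h1 using 1 <;> ring
    exact (mul_dvd_mul_iff_left hC).mp this
  have h4 : 2 ^ b ∣ o * s := by
    have : C * 2 ^ b ∣ C * (o * s) := by convert h2 using 1 <;> ring
    exact (mul_dvd_mul_iff_left hC).mp this
  have h5 : 2 ^ b ∣ s := (cop ho b).symm.dvd_of_dvd_mul_left h4
  have h6 : A ∣ s := (cop hA a).dvd_of_dvd_mul_left h3
  have h7 : 2 ^ b * A ∣ s := (cop hA b).symm.mul_dvd h5 h6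
  obtain ⟨t, rfl⟩ := h7
  exact ⟨t, by ring⟩

/-- the partial sums -/
def S (n : ℕ) : ℤ := ∑ k ∈ range n, (28 * (k : ℤ) ^ 2 + 18 * k + 3) * ((2 * k).choose k : ℤ) ^ 4 * ((3 * k).choose k : ℤ) *
  (-64) ^ (n - 1 - k)

theorem S_succ (n : ℕ) : S (n + 1) = -64 * S n + (28 * (n : ℤ) ^ 2 + 18 * n + 3) *
    ((2 * n).choose n : ℤ) ^ 4 * ((3 * n).choose n : ℤ) := by
  rw [S, sum_range_succ, S, mul_sum]
  congr 1
  · refine sum_congr rfl fun k hk => ?_
    rw [mem_range] at hk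
    rw [show n + 1 - 1 - k = (n - 1 - k) + 1 by omega, pow_succ]
    ring
  · simp

theorem S_dvd {n : ℕ} (hn : 1 < n) : (2 * (n : ℤ) + 1) * (n : ℤ) ^ 2 * ((2 * n).choose n : ℤ) ^ 2 ∣ S n := by
  obtain ⟨k, rfl⟩ : ∃ k, n = k + 2 := ⟨n - 2, by omega⟩
  obtain ⟨o, ho, h3⟩ := two_part5 (κ := fun x => 28 * x ^ 2 + 18 * x + 3) (w := fun x => ((3 * x.toNat).choose x.toNat : ℤ))
    (m := -64) (by norm_num) (S := S) (fun n => by rw [S_succ]; simp) (by norm_num [S, sum_range_succ, Nat.choose]) k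
  have hcl := closed5 (S := fun n => (S n : ℚ)) (by simp [S]) (fun n => by
    rw [S_succ]; unfold c t3; push_cast; ring) (k + 1)
  obtain ⟨z, hz⟩ := sum_int (g := fun j => 2 * g (k + 1) j) (fun j => g_int (k + 1) j) (range (k + 1 + 1))
  have h4 : ((2 * ((k + 1 : ℕ) : ℤ) + 3) * (2 * ((k + 1 : ℕ) : ℤ) + 1) ^ 2) * ((2 * (k + 1)).choose (k + 1) : ℤ) ^ 2 ∣
      2 ^ 1 * S (k + 2) := by
    refine ⟨z, ?_⟩
    rw [← mul_sum] at hz
    have h5 : (S (k + 2) : ℚ) = ∑ j ∈ range (k + 1 + 1), g (k + 1) j := hcl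
    rw [← h5] at hz
    unfold c at hz
    rw [pow_one]
    exact_mod_cast hz
  have h5 := combineP 1 2 (A := (2 * ((k + 1 : ℕ) : ℤ) + 3) * (2 * ((k + 1 : ℕ) : ℤ) + 1) ^ 2)
    (C := ((2 * (k + 1)).choose (k + 1) : ℤ) ^ 2)
    (Odd.mul ⟨((k + 1 : ℕ) : ℤ) + 1, by ring⟩ (Odd.pow ⟨_, rfl⟩)) ho
    (pow_ne_zero _ (by exact_mod_cast (choose_pos' (k + 1)).ne')) h4 (by norm_num; exact h3)
  convert h5 using 1
  have := central (k + 1)
  have h' : (((k + 1 + 1) * (2 * (k + 1 + 1)).choose (k + 1 + 1) : ℕ) : ℤ) ^ 2 =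
    ((2 * (2 * (k + 1) + 1) * (2 * (k + 1)).choose (k + 1) : ℕ) : ℤ) ^ 2 := by rw [this]
  push_cast at h' ⊢
  rw [show k + 1 + 1 = k + 2 by ring] at h'
  linear_combination (2 * ((k : ℤ) + 2) + 1) * h'

end V11307.S5
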